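import Pool.Agent.P.MP_d10a06_co.Defs

set_option autoImplicit false

namespace Pool.Agent.P.MP_d10a06_co

open Finset Polynomial

/-- An independent family gives an independent set of the same size. -/
theorem indep_of_fun {ι : Type} [Fintype ι] {n t : ℕ} (ht : 2 ≤ t) (a : ι → ZMod n)
    (H : ∀ c : ι → ℤ, ∑ i, |c i| ≤ t → ∑ i, c i • a i = 0 → ∀ i, c i = 0) :
    ∃ A : Finset (ZMod n), A.card = Fintype.card ι ∧ Indep n t A := by
  classical
  have inj : Function.Injective a := by
    intro i j hij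
    by_contra hne
    have := H (Pi.single i 1 - Pi.single j 1) ?_ ?_ i
    · simp [hne] at this
    · calc ∑ k, |(Pi.single i 1 - Pi.single j 1 : ι → ℤ) k|
          ≤ ∑ k, ((Pi.single i 1 : ι → ℤ) k + (Pi.single j 1 : ι → ℤ) k) := by
            refine sum_le_sum fun k _ => ?_
            simp only [Pi.sub_apply, Pi.single_apply]
            split_ifs <;> simp
        _ = 2 := by simp [sum_add_distrib]
        _ ≤ t := by exact_mod_cast ht
    · simp [sub_smul, sum_sub_distrib, Pi.single_apply, hij]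
  refine ⟨univ.image a, by rw [card_image_of_injective _ inj, card_univ], fun c h1 h2 h3 => ?_⟩
  rw [sum_image fun i _ j _ h => inj h] at h1 h2 h3
  have := H (fun i => c (a i)) h2 h3
  simp [this] at h1

/-- The polynomial attached to a multiplicity function. -/
noncomputable def bp {F : Type} [Field F] [Fintype F] [DecidableEq F] (h : ℕ) (d : Fˣ → ℕ) :
    F[X] := X ^ (h - ∑ x, d x) * ∏ x : Fˣ, (X + C (x : F)) ^ d x

variable {F : Type} [Field F] [Fintype F] [DecidableEq F]

theorem bp_monic (h : ℕ) (d : Fˣ → ℕ) : (bp h d).Monic :=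
  (monic_X_pow _).mul (monic_prod_of_monic _ _ fun _ _ => (monic_X_add_C _).pow _)

theorem bp_deg {h : ℕ} {d : Fˣ → ℕ} (hd : ∑ x, d x ≤ h) : (bp h d).natDegree = h := by
  rw [bp, (monic_X_pow _).natDegree_mul (monic_prod_of_monic _ _ fun _ _ => (monic_X_add_C _).pow _),
    natDegree_prod_of_monic _ _ fun _ _ => (monic_X_add_C _).pow _]
  simp only [natDegree_pow, natDegree_X, natDegree_X_add_C, mul_one]
  omega

theorem bp_eval {h : ℕ} {d : Fˣ → ℕ} (x : Fˣ) : (bp h d).eval (-(x : F)) = 0 ↔ d x ≠ 0 := by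
  simp only [bp, eval_mul, eval_pow, eval_X, eval_prod, eval_add, eval_C, mul_eq_zero,
    prod_eq_zero_iff, mem_univ, true_and, pow_eq_zero_iff', neg_eq_zero, x.ne_zero, false_and,
    false_or, neg_add_eq_zero]
  constructor
  · rintro ⟨y, h1, h2⟩
    rwa [Units.ext h1]
  · exact fun h => ⟨x, rfl, h⟩

theorem bp_aeval {K : Type} [Field K] [Algebra F K] {θ : K} (hθ : θ ≠ 0) {h : ℕ} {d : Fˣ → ℕ}
    (hd : ∑ x, d x ≤ h) :
    aeval θ (bp h d) = θ ^ h * ∏ x : Fˣ, ((θ + algebraMap F K x) / θ) ^ d x := by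
  simp only [bp, map_mul, map_pow, map_prod, map_add, aeval_X, aeval_C, div_pow, prod_div_distrib,
    prod_pow_eq_pow_sum]
  rw [pow_sub₀ _ hθ hd]
  field_simp

/-- The multiplicative form of the Bose-Chowla theorem, normalized at `0`. -/
theorem bose_mul {K : Type} [Field K] [Algebra F K] {θ : K} {h : ℕ} (hh : 2 ≤ h)
    (hθ : ∀ f : F[X], f.degree < h → aeval θ f = 0 → f = 0) :
    θ ≠ 0 ∧ (∀ x : F, θ + algebraMap F K x ≠ 0) ∧ ∀ c : Fˣ → ℤ, ∑ x, (c x).toNat ≤ h →
      ∑ x, (-c x).toNat ≤ h → ∏ x : Fˣ, ((θ + algebraMap F K x) / θ) ^ c x = 1 → ∀ x, c x = 0 := by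
  have h1 : ∀ x : F, θ + algebraMap F K x ≠ 0 := fun x hx =>
    (monic_X_add_C x).ne_zero (hθ _ (by rw [degree_X_add_C]; exact_mod_cast hh) (by simpa using hx))
  have h0 : θ ≠ 0 := by simpa using h1 0
  refine ⟨h0, h1, fun c hp hn hc x => ?_⟩
  have e : bp h (fun x => (c x).toNat) = bp h (fun x => (-c x).toNat) := by
    rw [← sub_eq_zero]
    refine hθ _ ?_ ?_
    · have a := (bp_monic h fun x => (c x).toNat)
      have b := (bp_monic h fun x => (-c x).toNat)
      have := degree_sub_lt_left (p := bp h fun x => (c x).toNat) (q := bp h fun x => (-c x).toNat)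
        (by rw [degree_eq_natDegree a.ne_zero, degree_eq_natDegree b.ne_zero, bp_deg hp, bp_deg hn])
        a.ne_zero (by rw [a.leadingCoeff, b.leadingCoeff])
      rwa [degree_eq_natDegree a.ne_zero, bp_deg hp] at this
    · rw [map_sub, bp_aeval h0 hp, bp_aeval h0 hn, sub_eq_zero]
      congr 1
      rw [← mul_one (∏ x : Fˣ, _ ^ (-c x).toNat), ← hc, ← prod_mul_distrib]
      refine prod_congr rfl fun x _ => ?_
      rw [← zpow_natCast, ← zpow_natCast, ← zpow_add₀ (div_ne_zero (h1 _) h0)]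
      congr 1
      omega
  have := (bp_eval (h := h) (d := fun x => (c x).toNat) x).symm.trans
    (e ▸ bp_eval (h := h) (d := fun x => (-c x).toNat) x)
  omega

/-- A generator of the multiplicative group has full degree. -/
theorem gen_deg {K : Type} [Field K] [Algebra F K] [FiniteDimensional F K] {g : Kˣ}
    (hg : ∀ x, x ∈ Subgroup.zpowers g) (f : F[X]) (hf : f.degree < Module.finrank F K)
    (h0 : aeval (g : K) f = 0) : f = 0 := by
  have top : IntermediateField.adjoin F {(g : K)} = ⊤ := by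
    rw [eq_top_iff]
    intro x _
    by_cases hx : x = 0
    · rw [hx]; exact zero_mem _
    · obtain ⟨k, hk⟩ := hg (Units.mk0 x hx)
      have : x = (g : K) ^ k := by rw [← Units.val_zpow_eq_zpow_val]; simp [hk]
      rw [this]
      exact zpow_mem (IntermediateField.mem_adjoin_simple_self F _) k
  have hd := (Field.primitive_element_iff_minpoly_natDegree_eq F (g : K)).1 top
  by_contra hne
  have := minpoly.degree_le_of_ne_zero F (g : K) hne h0
  rw [degree_eq_natDegree (minpoly.ne_zero_of_finite F _), hd] at this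
  exact absurd hf (not_lt.2 this)

/-- Bose-Chowla numbers in a window of length `p ^ h - 1`. -/
theorem bose {p h : ℕ} [Fact p.Prime] (hh : 2 ≤ h) (y0 : ℤ) :
    ∃ y : (ZMod p)ˣ → ℤ, (∀ x, y0 ≤ y x ∧ y x ≤ y0 + (p ^ h - 2)) ∧ ∀ c : (ZMod p)ˣ → ℤ,
      ∑ x, (c x).toNat ≤ h → ∑ x, (-c x).toNat ≤ h → ∑ x, c x * y x = 0 → ∀ x, c x = 0 := by
  classical
  obtain ⟨g, hg⟩ := IsCyclic.exists_generator (α := (GaloisField p h)ˣ)
  have hr := GaloisField.finrank p (n := h) (by omega)
  obtain ⟨h0, h1, h2⟩ := bose_mul (F := ZMod p) (θ := (g : GaloisField p h)) hh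
    fun f hf => gen_deg hg f (hr.symm ▸ hf)
  have ho : (orderOf g : ℤ) = p ^ h - 1 := by
    rw [orderOf_eq_card_of_forall_mem_zpowers hg, Nat.card_units, GaloisField.card p h (by omega),
      Nat.cast_sub (Nat.one_le_pow _ _ (Fact.out : p.Prime).pos)]
    simp
  have hpos : (0 : ℤ) < orderOf g := by exact_mod_cast orderOf_pos g
  have : ∀ x : (ZMod p)ˣ, ∃ y : ℤ, (y0 ≤ y ∧ y ≤ y0 + (p ^ h - 2)) ∧ (g : GaloisField p h) ^ y =
      ((g : GaloisField p h) + algebraMap (ZMod p) _ x) / g := fun x => by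
    obtain ⟨k, hk⟩ := hg (Units.mk0 _ (div_ne_zero (h1 x) h0))
    refine ⟨y0 + (k - y0) % orderOf g, ⟨?_, ?_⟩, ?_⟩
    · have := Int.emod_nonneg (k - y0) hpos.ne'
      omega
    · have := Int.emod_lt_of_pos (k - y0) hpos
      omega
    · rw [← Units.val_zpow_eq_zpow_val, zpow_add, zpow_mod_orderOf, ← zpow_add, add_sub_cancel]
      simp [hk]
  choose y hy hy' using this
  refine ⟨y, hy, fun c hp hn hc => h2 c hp hn ?_⟩
  simp only [← hy', ← zpow_mul]
  rw [← zpow_zero (g : GaloisField p h), ← hc]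
  clear hc hp hn
  induction (univ : Finset (ZMod p)ˣ) using Finset.induction_on with
  | empty => simp
  | insert a s ha ih => rw [prod_insert ha, sum_insert ha, ih, zpow_add₀ h0, mul_comm (c a)]

end Pool.Agent.P.MP_d10a06_co
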