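import Mathlib

set_option autoImplicit false

namespace Pool.Agent.P.MP_d10a06_co

/-- `A` is `t`-independent in the cyclic group of order `n`: no integer combination of the
elements of `A` whose coefficients have absolute values summing to a number in `[1, t]`
vanishes. -/
def Indep (n t : ℕ) (A : Finset (ZMod n)) : Prop :=
  ∀ c : ZMod n → ℤ, 1 ≤ ∑ a ∈ A, |c a| → ∑ a ∈ A, |c a| ≤ t → ∑ a ∈ A, c a • a ≠ 0

end Pool.Agent.P.MP_d10a06_co
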