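import Pool.Agent.P.MP_d10a06_co.Bose
import Pool.Agent.P.MP_0ad054_nt.An.SW
import Pool.Agent.P.MP_0ad054_nt.An.Zfree
import Pool.Agent.P.MP_0ad054_nt.An.Tauber
import Pool.Agent.P.MP_0ad054_nt.An.Siegel
import Pool.Agent.P.MP_0ad054_nt.An.Lup

set_option autoImplicit false

namespace Pool.Agent.P.MP_d10a06_co

open Finset

theorem sum_bounds {ι : Type} [Fintype ι] (c a : ι → ℤ) {α β : ℤ} (h : ∀ i, α ≤ a i ∧ a i ≤ β) :
    (∑ i, (c i).toNat : ℕ) * α - (∑ i, (-c i).toNat : ℕ) * β ≤ ∑ i, c i * a i ∧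
      ∑ i, c i * a i ≤ (∑ i, (c i).toNat : ℕ) * β - (∑ i, (-c i).toNat : ℕ) * α := by
  push_cast
  rw [sum_mul, sum_mul, sum_mul, sum_mul, ← sum_sub_distrib, ← sum_sub_distrib]
  constructor <;> refine sum_le_sum fun i _ => ?_ <;> obtain ⟨h1, h2⟩ := h i <;>
    rcases le_total 0 (c i) with hc | hc
  · rw [Int.toNat_of_nonneg hc, Int.toNat_of_nonpos (by omega)]; push_cast; nlinarith
  · rw [Int.toNat_of_nonpos hc, Int.toNat_of_nonneg (by omega)]; push_cast; nlinarith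
  · rw [Int.toNat_of_nonneg hc, Int.toNat_of_nonpos (by omega)]; push_cast; nlinarith
  · rw [Int.toNat_of_nonpos hc, Int.toNat_of_nonneg (by omega)]; push_cast; nlinarith

theorem window {p n t : ℕ} (hp : p.Prime) (ht : 4 ≤ t) (hpar : Even (t * n))
    (hn : (1 + t % 2) * (t / 2 * (t / 2 + 1)) * p ^ (t / 2) ≤ n) :
    ∃ A : Finset (ZMod n), A.card = p - 1 ∧ Indep n t A := by
  classical
  have := Fact.mk hp
  obtain ⟨h, hh⟩ : ∃ h, h = t / 2 := ⟨_, rfl⟩
  obtain ⟨r, hr⟩ : ∃ r, r = t % 2 := ⟨_, rfl⟩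
  rw [← hh, ← hr] at hn
  have h2 : 2 ≤ h := by omega
  obtain ⟨L, hL⟩ : ∃ L : ℤ, L = p ^ h - 2 := ⟨_, rfl⟩
  have L0 : 0 ≤ L := by
    have : 2 ^ 1 ≤ p ^ h := (Nat.pow_le_pow_left hp.two_le 1).trans
      (Nat.pow_le_pow_right hp.pos (by omega))
    zify at this
    omega
  obtain ⟨y0, hy0, hy1⟩ : ∃ y0 : ℤ, (h - 1) * L < 2 * y0 ∧ 2 * y0 ≤ (h - 1) * L + 2 :=
    ⟨(h - 1) * L / 2 + 1, by omega, by omega⟩
  obtain ⟨y, hy, H⟩ := bose (p := p) h2 y0
  rw [← hL] at hy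
  rw [← ZMod.card_units p]
  refine indep_of_fun (by omega) (fun x => (((1 + r) * y x + r : ℤ) : ZMod n)) fun c hc h0 => ?_
  have dv : (n : ℤ) ∣ ∑ x, c x * ((1 + r) * y x + r) := by
    rw [← ZMod.intCast_zmod_eq_zero_iff_dvd, ← h0]
    push_cast
    simp only [zsmul_eq_mul]
  have r0 : (0 : ℤ) ≤ r := by positivity
  have r1 : (r : ℤ) ≤ 1 := by omega
  obtain ⟨b1, b2⟩ := sum_bounds c (fun x => (1 + r) * y x + r) (α := (1 + r) * y0 + r)
    (β := (1 + r) * (y0 + L) + r) fun x => by constructor <;> nlinarith [hy x]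
  have e1 : ∑ x, |c x| = (∑ x, (c x).toNat : ℕ) + (∑ x, (-c x).toNat : ℕ) := by
    push_cast
    rw [← sum_add_distrib]
    exact sum_congr rfl fun x _ => by rcases abs_cases (c x) with h | h <;> omega
  have e2 : ∑ x, c x * ((1 + r) * y x + r) = (1 + r) * ∑ x, c x * y x +
      r * ((∑ x, (c x).toNat : ℕ) - (∑ x, (-c x).toNat : ℕ)) := by
    push_cast
    rw [← sum_sub_distrib, mul_sum, mul_sum, ← sum_add_distrib]
    exact sum_congr rfl fun x _ => by rw [Int.toNat_sub_toNat_neg]; ring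
  have H' := H c
  generalize ∑ x, (c x).toNat = P at *
  generalize ∑ x, (-c x).toNat = N at *
  generalize ∑ x, c x * y x = W at *
  generalize ∑ x, c x * ((1 + r) * y x + r) = V at *
  have par : r = 1 → (P + N) % 2 = 0 := fun h1 => by
    have : Even n := (Nat.even_mul.1 hpar).resolve_left (by rw [Nat.even_iff]; omega)
    obtain ⟨k, hk⟩ := this
    obtain ⟨d, hd⟩ := dv
    have : V = 2 * (k * d) := by rw [hd, hk]; push_cast; ring
    rw [h1] at e2
    push_cast at e2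
    omega
  have PN : P + N ≤ 2 * h := by omega
  have hL1 : 0 ≤ ((h : ℤ) - 1) * L := mul_nonneg (by omega) L0
  have a0 : (h - 1) * ((1 + r) * L) < 2 * ((1 + r) * y0 + r) := by nlinarith
  have rl : 0 ≤ (1 + r) * L := by positivity
  have b0 : 2 * h * ((1 + r) * (y0 + L) + r) < n := by
    zify at hn
    rw [show (p : ℤ) ^ h = L + 2 by omega] at hn
    have : 2 * ((1 + r) * (y0 + L) + r) < (1 + r) * ((h + 1) * (L + 2)) := by nlinarith
    nlinarith
  obtain ⟨α, hα⟩ : ∃ α : ℤ, α = (1 + r) * y0 + r := ⟨_, rfl⟩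
  obtain ⟨D, hD⟩ : ∃ D : ℤ, D = (1 + r) * L := ⟨_, rfl⟩
  rw [show (1 + r) * (y0 + L) + r = α + D by rw [hα, hD]; ring] at b0 b1 b2
  rw [← hα] at a0 b1 b2
  rw [← hD] at a0 rl
  have α0 : 0 < α := by nlinarith
  have P0 : (0 : ℤ) ≤ P := by positivity
  have N0 : (0 : ℤ) ≤ N := by positivity
  have V0 : V = 0 := Int.eq_zero_of_abs_lt_dvd dv (by
    rw [abs_lt]
    zify at PN
    constructor <;> nlinarith)
  have c1 : P ≤ N + 1 := by
    by_contra hc
    have : (N : ℤ) + 2 ≤ P := by omega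
    have : (N : ℤ) ≤ h - 1 := by omega
    nlinarith
  have c2 : N ≤ P + 1 := by
    by_contra hc
    have : (P : ℤ) + 2 ≤ N := by omega
    have : (P : ℤ) ≤ h - 1 := by omega
    nlinarith
  refine H' (by omega) (by omega) ?_
  rcases (by omega : r = 0 ∨ r = 1) with h1 | h1 <;> rw [h1] at e2 <;> push_cast at e2 <;> omega

open Filter in
/-- Primes just below `X`, from the prime number theorem. -/
theorem prime_below {δ : ℝ} (hδ : 0 < δ) :
    ∀ᶠ X : ℕ in atTop, ∃ p : ℕ, p.Prime ∧ p ≤ X ∧ (1 - δ) * (X + 1) ≤ (p - 1 : ℝ) := by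
  wlog h1 : δ ≤ 1 / 2 generalizing δ
  · filter_upwards [this (δ := 1 / 2) (by norm_num) le_rfl] with X ⟨p, a, b, c⟩
    exact ⟨p, a, b, le_trans (by gcongr; linarith) c⟩
  obtain ⟨C, hC, hψ⟩ := open Pool.Agent.P.MP_0ad054_nt.An in
    pnt lup (zfree lup (siegel lup)) tauber 1
  obtain ⟨C', hθ⟩ := Chebyshev.psi_sub_theta_le_mul_sqrt
  have key : ∀ᶠ X : ℕ in atTop, |Chebyshev.theta X - X| ≤ δ / 8 * X := by
    have t1 : Tendsto (fun X : ℕ => Real.log X) atTop atTop :=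
      Real.tendsto_log_atTop.comp tendsto_natCast_atTop_atTop
    have t2 : Tendsto (fun X : ℕ => Real.sqrt X) atTop atTop :=
      Real.tendsto_sqrt_atTop.comp tendsto_natCast_atTop_atTop
    filter_upwards [t1.eventually_ge_atTop (16 * C / δ), t2.eventually_ge_atTop (16 * C' / δ),
      eventually_ge_atTop 2] with X a b c
    have d := hψ X c
    have e := hθ X
    have f := Chebyshev.theta_le_psi X
    have hX : (2 : ℝ) ≤ X := by exact_mod_cast c
    have l0 : 0 < Real.log X := Real.log_pos (by linarith)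
    have g : Chebyshev.psi X = ∑ n ∈ Icc 1 X, ArithmeticFunction.vonMangoldt n := by
      rw [Chebyshev.psi, Nat.floor_natCast]
      rfl
    rw [← g, pow_one] at d
    rw [div_le_iff₀ hδ] at a b
    have d1 : C * X / Real.log X ≤ δ / 16 * X := by
      rw [div_le_iff₀ l0]
      nlinarith
    have s0 := Real.sqrt_nonneg X
    have s1 := Real.mul_self_sqrt (show (0 : ℝ) ≤ X by linarith)
    have d2 : C' * Real.sqrt X ≤ δ / 16 * X := by nlinarith
    rw [abs_le] at d ⊢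
    constructor <;> linarith [d.1, d.2]
  obtain ⟨N, hN⟩ := eventually_atTop.1 key
  have t3 : Tendsto (fun X : ℕ => (X : ℝ)) atTop atTop := tendsto_natCast_atTop_atTop
  filter_upwards [t3.eventually_ge_atTop (2 * N), t3.eventually_ge_atTop (8 / δ)] with X a b
  rw [div_le_iff₀ hδ] at b
  obtain ⟨Y, hY⟩ : ∃ Y : ℕ, Y = ⌈(1 - δ / 2) * X⌉₊ := ⟨_, rfl⟩
  have X0 : (0 : ℝ) ≤ X := by positivity
  have N0 : (0 : ℝ) ≤ N := by positivity
  have y1 : (1 - δ / 2) * X ≤ Y := hY ▸ Nat.le_ceil _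
  have y2 : (Y : ℝ) < (1 - δ / 2) * X + 1 := hY ▸ Nat.ceil_lt_add_one (by nlinarith)
  have k1 := abs_le.1 (hN X (by exact_mod_cast (by linarith : (N : ℝ) ≤ X)))
  have k2 := abs_le.1 (hN Y (by exact_mod_cast (by nlinarith : (N : ℝ) ≤ Y)))
  by_contra hc
  have : Chebyshev.theta X ≤ Chebyshev.theta Y := by
    rw [Chebyshev.theta, Chebyshev.theta, Nat.floor_natCast, Nat.floor_natCast]
    refine sum_le_sum_of_subset_of_nonneg (fun p hp => ?_) fun p _ _ => Real.log_natCast_nonneg p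
    simp only [mem_filter, mem_Ioc] at hp ⊢
    refine ⟨⟨hp.1.1, ?_⟩, hp.2⟩
    by_contra hlt
    have : (Y : ℝ) ≤ p := by exact_mod_cast (not_le.1 hlt).le
    exact hc ⟨p, hp.2, hp.1.2, by nlinarith⟩
  nlinarith [k1.1, k2.2]

open Filter in
theorem lower {t : ℕ} (ht : 4 ≤ t) {ε : ℝ} (hε : 0 < ε) :
    ∃ N : ℕ, ∀ n : ℕ, N ≤ n → Even (t * n) → ∃ A : Finset (ZMod n), Indep n t A ∧
      (1 - ε) * n ≤ ((1 + t % 2) * (t / 2 * (t / 2 + 1)) * A.card ^ (t / 2) : ℕ) := by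
  wlog h1 : ε ≤ 1 generalizing ε
  · obtain ⟨N, hN⟩ := this one_pos le_rfl
    refine ⟨N, fun n a b => ?_⟩
    obtain ⟨A, c, d⟩ := hN n a b
    exact ⟨A, c, le_trans (by gcongr; linarith) d⟩
  obtain ⟨h, hh⟩ : ∃ h, h = t / 2 := ⟨_, rfl⟩
  obtain ⟨D, hD⟩ : ∃ D, D = (1 + t % 2) * (t / 2 * (t / 2 + 1)) := ⟨_, rfl⟩
  have h2 : (1 : ℝ) ≤ h := by exact_mod_cast (by omega : 1 ≤ h)
  have D0 : 0 < D := by
    rw [hD]
    exact Nat.mul_pos (by omega) (Nat.mul_pos (by omega) (by omega))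
  obtain ⟨X0, hX0⟩ := eventually_atTop.1 (prime_below (δ := ε / h) (by positivity))
  refine ⟨D * X0 ^ h, fun n hn hpar => ?_⟩
  have ex : ∃ X, n < D * (X + 1) ^ h := ⟨n, by
    have := Nat.le_self_pow (n := h) (by omega) (n + 1)
    nlinarith⟩
  have hX := Nat.find_spec ex
  have hX1 : D * Nat.find ex ^ h ≤ n := by
    rcases e : Nat.find ex with _ | k
    · rw [zero_pow (by omega)]
      simp
    · exact not_lt.1 (Nat.find_min ex (by omega))
  have hX2 : X0 ≤ Nat.find ex := by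
    have := Nat.lt_of_mul_lt_mul_left (hn.trans_lt hX)
    have := lt_of_pow_lt_pow_left₀ h (by omega) this
    omega
  generalize Nat.find ex = X at *
  obtain ⟨p, pp, pX, hp⟩ := hX0 X hX2
  obtain ⟨A, cA, iA⟩ := window pp ht hpar (by
    rw [← hD, ← hh]
    exact le_trans (by gcongr) hX1)
  refine ⟨A, iA, ?_⟩
  rw [← hD, ← hh, cA]
  push_cast [pp.one_le]
  have d1 : ε / h ≤ 1 := by rw [div_le_one (by linarith)]; linarith
  have b := one_add_mul_le_pow (a := -(ε / h)) (by linarith) h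
  have b1 : 1 - ε ≤ (1 - ε / h) ^ h := by
    rwa [mul_neg, mul_div_cancel₀ _ (by linarith), ← sub_eq_add_neg, ← sub_eq_add_neg] at b
  have hX' : (n : ℝ) ≤ D * (X + 1) ^ h := by exact_mod_cast hX.le
  calc (1 - ε) * n ≤ (1 - ε / h) ^ h * (D * (X + 1) ^ h) := by
        gcongr
    _ = D * ((1 - ε / h) * (X + 1)) ^ h := by rw [mul_pow]; ring
    _ ≤ D * (p - 1) ^ h := by
        gcongr

end Pool.Agent.P.MP_d10a06_co
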