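import Pool.Agent.P.MP_d10a06_co.Defs

set_option autoImplicit false

namespace Pool.Agent.P.MP_d10a06_co

open Finset

/-- independence of a pair of integers modulo `n`, in the coordinates `x + y`, `x - y` -/
def Ind2 (n t a b : ℤ) : Prop :=
  ∀ x y : ℤ, |x + y| ≤ t → |x - y| ≤ t → n ∣ x * a + y * b → x = 0 ∧ y = 0

theorem dv {n x y : ℤ} (h : n ∣ x) (e : y = x) : n ∣ y := e ▸ h

theorem abs_add_abs_le {x y t : ℤ} : |x| + |y| ≤ t ↔ |x + y| ≤ t ∧ |x - y| ≤ t := by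
  simp only [abs_le]
  rcases abs_cases x with h | h <;> rcases abs_cases y with h' | h' <;> omega

theorem pair_iff {n t : ℕ} (ht : 2 ≤ t) :
    (∃ A : Finset (ZMod n), A.card = 2 ∧ Indep n t A) ↔ ∃ a b : ℤ, Ind2 n t a b := by
  constructor
  · rintro ⟨A, hA, h⟩
    obtain ⟨a, b, hab, rfl⟩ := card_eq_two.1 hA
    obtain ⟨a, rfl⟩ := ZMod.intCast_surjective a
    obtain ⟨b, rfl⟩ := ZMod.intCast_surjective b
    refine ⟨a, b, fun x y h1 h2 h3 => ?_⟩
    by_contra h0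
    have := h fun z => if z = (a : ZMod n) then x else y
    simp only [sum_pair hab, if_true, if_neg hab.symm] at this
    refine this ?_ (abs_add_abs_le.2 ⟨h1, h2⟩) ?_
    · rcases abs_cases x with h | h <;> rcases abs_cases y with h' | h' <;> omega
    · have h4 := (ZMod.intCast_zmod_eq_zero_iff_dvd _ n).2 h3
      simpa using h4
  · rintro ⟨a, b, h⟩
    have hab : (a : ZMod n) ≠ b := fun e => by
      have h1 : ((1 * a + -1 * b : ℤ) : ZMod n) = 0 := by push_cast; rw [e]; ring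
      have := h 1 (-1) (by simp) (by norm_num; exact_mod_cast ht)
        ((ZMod.intCast_zmod_eq_zero_iff_dvd _ n).1 h1)
      omega
    refine ⟨{(a : ZMod n), (b : ZMod n)}, card_pair hab, fun c h1 h2 h3 => ?_⟩
    rw [sum_pair hab] at h1 h2 h3
    obtain ⟨h4, h5⟩ := abs_add_abs_le.1 h2
    have := h _ _ h4 h5 ((ZMod.intCast_zmod_eq_zero_iff_dvd _ n).1 (by simpa using h3))
    rw [this.1, this.2] at h1
    simp at h1

/-- pigeonhole principle in a box -/
theorem pigeon {n A B C D : ℕ} (hn : 0 < n) (h : n < A * B + C * D) (h1 : C ≤ A) (h2 : A ≤ C + 1)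
    (h3 : D ≤ B) (h4 : B ≤ D + 1) (a b : ℤ) :
    ∃ x y : ℤ, ¬ (x = 0 ∧ y = 0) ∧ |x + y| < A + C ∧ |x - y| < B + D ∧
      (n : ℤ) ∣ x * a + y * b := by
  have : NeZero n := ⟨hn.ne'⟩
  let f : (ℕ × ℕ) ⊕ (ℕ × ℕ) → ℤ × ℤ := Sum.elim (fun p => (p.1 + p.2, p.1 - p.2))
    fun p => (p.1 + p.2 + 1, p.1 - p.2)
  obtain ⟨p, hp, q, hq, hne, e⟩ := exists_ne_map_eq_of_card_lt_of_maps_to
    (s := (range A ×ˢ range B).disjSum (range C ×ˢ range D)) (t := (univ : Finset (ZMod n)))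
    (f := fun p => (((f p).1 * a + (f p).2 * b : ℤ) : ZMod n)) (by simpa using h)
    fun _ _ => mem_univ _
  refine ⟨(f p).1 - (f q).1, (f p).2 - (f q).2, ?_, ?_, ?_, ?_⟩
  rotate_right
  · have := (ZMod.intCast_eq_intCast_iff_dvd_sub _ _ n).1 e.symm
    convert this using 1
    ring
  all_goals
    rcases p with ⟨i, j⟩ | ⟨i, j⟩ <;> rcases q with ⟨k, l⟩ | ⟨k, l⟩ <;>
      simp only [inl_mem_disjSum, inr_mem_disjSum, mem_product, mem_range, ne_eq, Sum.inl.injEq,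
        Sum.inr.injEq, Prod.mk.injEq, f, Sum.elim_inl, Sum.elim_inr, abs_lt] at hp hq hne ⊢ <;>
      omega

theorem Ind2.low_even {n j : ℕ} {a b : ℤ} (hn : 0 < n) (h : Ind2 n (2 * j) a b) :
    (j + 1) * (j + 1) + j * j ≤ n := by
  by_contra hc
  obtain ⟨x, y, h0, h1, h2, h3⟩ := pigeon hn (not_le.1 hc) (by omega) le_rfl (by omega) le_rfl a b
  exact h0 (h x y (by push_cast at h1; omega) (by push_cast at h2; omega) h3)

theorem Ind2.low_odd {n j : ℕ} {a b : ℤ} (hn : 0 < n) (h : Ind2 n (2 * j - 1) a b) :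
    j * j + j * j ≤ n := by
  by_contra hc
  obtain ⟨x, y, h0, h1, h2, h3⟩ := pigeon hn (not_le.1 hc) le_rfl (by omega) le_rfl (by omega) a b
  exact h0 (h x y (by omega) (by omega) h3)

theorem Ind2.tors {n D : ℕ} {t a b : ℤ} (hn : 0 < n) (h : Ind2 n t a b) (ha : (n : ℤ) ∣ D * a)
    (hb : (n : ℤ) ∣ D * b) : ∃ a' b', Ind2 (n.gcd D) t a' b' := by
  obtain ⟨n', D', hc, e1, e2⟩ := Nat.exists_coprime n D
  have hg : 0 < n.gcd D := Nat.gcd_pos_of_pos_left _ hn
  generalize n.gcd D = g at e1 e2 hg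
  subst e1 e2
  have key : ∀ a : ℤ, ((n' * g : ℕ) : ℤ) ∣ (D' * g : ℕ) * a → (n' : ℤ) ∣ a := fun a ha => by
    push_cast at ha
    rw [mul_right_comm] at ha
    exact (Nat.isCoprime_iff_coprime.2 hc).dvd_of_dvd_mul_left
      ((mul_dvd_mul_iff_right (by exact_mod_cast hg.ne')).1 ha)
  obtain ⟨a', rfl⟩ := key a ha
  obtain ⟨b', rfl⟩ := key b hb
  refine ⟨a', b', fun x y h1 h2 h3 => h x y h1 h2 ?_⟩
  push_cast
  exact dv (mul_dvd_mul_left (n' : ℤ) h3) (by ring)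

theorem Ind2.struct {n j : ℕ} {a b : ℤ} (hn : 0 < n) (h : Ind2 n (2 * j - 1) a b)
    (hlt : n < (j + 1) * j + j * j) : n % 2 = 0 ∧ (j % 2 = 0 ∨ n % 4 = 2) := by
  obtain ⟨x, y, h0, h1, h2, h3⟩ := pigeon hn hlt (by omega) le_rfl le_rfl (by omega) a b
  obtain ⟨z, w, k0, k1, k2, k3⟩ := pigeon (A := j) (B := j + 1) (C := j) (D := j) hn
    (by rwa [mul_comm j]) le_rfl (by omega) (by omega) le_rfl a b
  push_cast at h1 k2
  -- normal forms `(j + p, j - p)` and `(r + j, r - j)`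
  obtain ⟨p, hp, e1⟩ : ∃ p : ℤ, |p| < j ∧ (n : ℤ) ∣ (j + p) * a + (j - p) * b := by
    have h4 : ¬ |x + y| ≤ 2 * j - 1 := fun e => h0 (h x y e (by omega) h3)
    rw [abs_lt] at h1 h2
    rw [abs_le] at h4
    rcases (by omega : x + y = 2 * j ∨ x + y = -(2 * j)) with e | e
    · exact ⟨x - j, by rw [abs_lt]; omega, by convert h3 using 3 <;> omega⟩
    · refine ⟨-x - j, by rw [abs_lt]; omega, ?_⟩
      rw [show (j : ℤ) + (-x - j) = -x by ring, show (j : ℤ) - (-x - j) = -y by omega]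
      exact dv h3.neg_right (by ring)
  obtain ⟨r, hr, e2⟩ : ∃ r : ℤ, |r| < j ∧ (n : ℤ) ∣ (r + j) * a + (r - j) * b := by
    have h4 : ¬ |z - w| ≤ 2 * j - 1 := fun e => k0 (h z w (by omega) e k3)
    rw [abs_lt] at k1 k2
    rw [abs_le] at h4
    rcases (by omega : z - w = 2 * j ∨ z - w = -(2 * j)) with e | e
    · exact ⟨z - j, by rw [abs_lt]; omega, by convert k3 using 3 <;> omega⟩
    · refine ⟨-z - j, by rw [abs_lt]; omega, ?_⟩
      rw [show -z - j + (j : ℤ) = -z by ring, show -z - j - (j : ℤ) = -w by omega]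
      exact dv k3.neg_right (by ring)
  clear h0 h1 h2 h3 k0 k1 k2 k3 x y z w
  rw [abs_lt] at hp hr
  have s1 : p ≤ 0 ∨ r ≤ 0 := by
    by_contra hc
    have := h (p - r) (2 * j - p - r) (by rw [abs_le]; omega) (by rw [abs_le]; omega)
      (dv (e1.sub e2) (by ring))
    omega
  have s2 : 0 ≤ p ∨ 0 ≤ r := by
    by_contra hc
    have := h (2 * j + p + r) (r - p) (by rw [abs_le]; omega) (by rw [abs_le]; omega)
      (dv (e1.add e2) (by ring))
    omega
  have s3 : p * r ≤ 0 := by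
    rcases s1 with s1 | s1 <;> rcases s2 with s2 | s2 <;> nlinarith
  have s4 : -(p * r) < j * j := by nlinarith
  obtain ⟨m, hm⟩ : ∃ m : ℕ, (m : ℤ) = -(p * r) := ⟨(-(p * r)).toNat, by omega⟩
  obtain ⟨a', b', hg⟩ := h.tors (D := 2 * (j * j + m)) hn
    (by
      push_cast
      rw [hm]
      exact dv ((e2.mul_left (j - p)).sub (e1.mul_left (r - j))) (by ring))
    (by
      push_cast
      rw [hm]
      exact dv ((e1.mul_left (r + j)).sub (e2.mul_left (j + p))) (by ring))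
  have hm' : m < j * j := by
    have : (m : ℤ) < j * j := by omega
    exact_mod_cast this
  have hg0 : 0 < n.gcd (2 * (j * j + m)) := Nat.gcd_pos_of_pos_left _ hn
  have g1 := hg.low_odd hg0
  have jj : j ≤ j * j := Nat.le_mul_self j
  have eq_of : ∀ {g N : ℕ}, g ∣ N → 0 < N → N < 2 * g → g = N := fun {g N} hd h0 h1 => by
    obtain ⟨c, rfl⟩ := hd
    rcases c with _ | _ | c
    · simp at h0
    · simp
    · nlinarith
  have g2 := eq_of (Nat.gcd_dvd_left n (2 * (j * j + m))) hn (by nlinarith)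
  have g3 := eq_of (Nat.gcd_dvd_right n (2 * (j * j + m))) (by omega) (by omega)
  have hD : n = 2 * (j * j + m) := g2.symm.trans g3
  refine ⟨by omega, ?_⟩
  by_contra hc
  have j1 : j % 2 = 1 := by omega
  have j2 : j * j % 2 = 1 := by rw [Nat.mul_mod, j1]
  have m1 : Odd (p * r) := by
    rw [Int.odd_iff]
    omega
  obtain ⟨⟨p', rfl⟩, ⟨r', rfl⟩⟩ := Int.odd_mul.1 m1
  obtain ⟨i, hi⟩ : ∃ i : ℤ, (j : ℤ) = 2 * i + 1 := ⟨j / 2, by omega⟩
  obtain ⟨N, hN⟩ : ∃ N : ℤ, (n : ℤ) = 2 * N := ⟨j * j + m, by rw [hD]; push_cast; ring⟩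
  obtain ⟨u, hu⟩ : N ∣ (i + p' + 1) * a + (i - p') * b := by
    refine (mul_dvd_mul_iff_left (two_ne_zero' ℤ)).1 ?_
    rw [← hN]
    exact dv e1 (by rw [hi]; ring)
  obtain ⟨v, hv⟩ : N ∣ (r' + i + 1) * a + (r' - i) * b := by
    refine (mul_dvd_mul_iff_left (two_ne_zero' ℤ)).1 ?_
    rw [← hN]
    exact dv e2 (by rw [hi]; ring)
  rcases Int.even_or_odd' u with ⟨u, rfl | rfl⟩
  · have := h (i + p' + 1) (i - p') (by rw [abs_le]; omega) (by rw [abs_le]; omega)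
      ⟨u, by rw [hu, hN]; ring⟩
    omega
  rcases Int.even_or_odd' v with ⟨v, rfl | rfl⟩
  · have := h (r' + i + 1) (r' - i) (by rw [abs_le]; omega) (by rw [abs_le]; omega)
      ⟨v, by rw [hv, hN]; ring⟩
    omega
  · have := h (p' - r') (2 * i - p' - r') (by rw [abs_le]; omega) (by rw [abs_le]; omega)
      ⟨u - v, by rw [hN]; linear_combination hu - hv⟩
    omega

/-! ### constructions -/

theorem zero_of_small {c x t : ℤ} (h : c ∣ x) (h1 : |x| ≤ t) (h2 : t < c) : x = 0 :=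
  Int.eq_zero_of_abs_lt_dvd h (h1.trans_lt h2)

theorem ind_consec {n t j : ℤ} (hj : 0 ≤ j) (ht : t ≤ 2 * j) (hn : t * (j + 1) < n) :
    Ind2 n t j (j + 1) := fun x y h1 h2 h3 => by
  have h4 := abs_add_abs_le.2 ⟨h1, h2⟩
  have h5 : |x * j + y * (j + 1)| ≤ t * (j + 1) := by
    refine (abs_add_le _ _).trans ?_
    rw [abs_mul, abs_mul, abs_of_nonneg hj, abs_of_nonneg (by omega : 0 ≤ j + 1)]
    nlinarith [abs_nonneg x, abs_nonneg y]
  have h6 := zero_of_small h3 h5 hn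
  have h7 : x - y = 0 := zero_of_small (c := 2 * j + 1)
    ⟨x + y, by linear_combination (-2 : ℤ) * h6⟩ h2 (by omega)
  have h8 : (x + y) * (2 * j + 1) = 0 := by linear_combination 2 * h6 + h7
  rcases mul_eq_zero.1 h8 with h | h <;> omega

theorem abs_lin {j c u v U W : ℤ} (hj : 0 ≤ j) (hc : 0 ≤ c) (hu : |u| ≤ U) (hv : |v| ≤ W) :
    |j * u - c * v| ≤ j * U + c * W := by
  refine (abs_sub _ _).trans ?_
  rw [abs_mul, abs_mul, abs_of_nonneg hj, abs_of_nonneg hc]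
  gcongr

theorem ind_one {N i : ℤ} (hi : 1 ≤ i) (hN : 4 * (i * i) ≤ N) :
    Ind2 (2 * N) (4 * i - 1) (2 * i - 1) (2 * i + 1) := fun x y h1 h2 h3 => by
  obtain ⟨c, hc⟩ := h3
  obtain ⟨v, hv⟩ : ∃ v, x - y = 2 * v := ⟨i * (x + y) - N * c, by linear_combination -hc⟩
  obtain ⟨u, hu⟩ : ∃ u, x + y = 2 * u := ⟨v + y, by omega⟩
  have a1 : |u| ≤ 2 * i - 1 := by rw [abs_le] at h1 ⊢; omega
  have a2 : |v| ≤ 2 * i - 1 := by rw [abs_le] at h2 ⊢; omega
  have a3 : N ∣ 2 * i * u - 1 * v := ⟨c, by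
    have : 2 * (2 * i * u - 1 * v) = 2 * (N * c) := by
      linear_combination hc - 2 * i * hu + hv
    omega⟩
  have a4 := zero_of_small a3 (abs_lin (by omega) (by omega) a1 a2) (by nlinarith)
  have a5 : v = 0 := zero_of_small (c := 2 * i) ⟨u, by omega⟩ a2 (by omega)
  have a6 : 2 * i * u = 0 := by omega
  rcases mul_eq_zero.1 a6 with h | h <;> omega

theorem ind_two {N i : ℤ} (hi : 0 ≤ i) (hN : (2 * i + 1) * (2 * i + 1) ≤ 2 * N + 1) :
    Ind2 (2 * (2 * N + 1)) (4 * i + 1) (2 * i - 1) (2 * i + 3) := fun x y h1 h2 h3 => by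
  obtain ⟨c, hc⟩ := h3
  obtain ⟨u, hu⟩ : ∃ u, x + y = 2 * u :=
    ⟨(2 * N + 1) * c + (x - y) - i * (x + y), by linear_combination hc⟩
  obtain ⟨v, hv⟩ : ∃ v, x - y = 2 * v := ⟨u - y, by omega⟩
  have a1 : |u| ≤ 2 * i := by rw [abs_le] at h1 ⊢; omega
  have a2 : |v| ≤ 2 * i := by rw [abs_le] at h2 ⊢; omega
  have a3 : (2 * i + 1) * u - 2 * v = (2 * N + 1) * c := by
    have : 2 * ((2 * i + 1) * u - 2 * v) = 2 * ((2 * N + 1) * c) := by
      linear_combination hc - (2 * i + 1) * hu + 2 * hv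
    omega
  have a4 : (2 * i + 1) * u - 2 * v = 0 := by
    rcases Int.even_or_odd' u with ⟨w, rfl | rfl⟩
    · obtain ⟨d, rfl⟩ : ∃ d, c = 2 * d :=
        ⟨(2 * i + 1) * w - v - N * c, by linear_combination -a3⟩
      exact zero_of_small (c := 2 * (2 * N + 1)) ⟨d, by rw [a3]; ring⟩
        (abs_lin (by omega) (by omega) a1 a2) (by nlinarith)
    · exact zero_of_small ⟨c, a3⟩ (abs_lin (U := 2 * i - 1) (by omega) (by omega)
        (by rw [abs_le] at a1 ⊢; omega) a2) (by nlinarith)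
  have a5 : v = 0 := zero_of_small (c := 2 * i + 1)
    ⟨v - i * u, by linear_combination i * a4⟩ a2 (by omega)
  have a6 : (2 * i + 1) * u = 0 := by omega
  rcases mul_eq_zero.1 a6 with h | h <;> omega

theorem pairs {n t : ℕ} (hn : 0 < n) (ht : 2 ≤ t) :
    (∃ A : Finset (ZMod n), A.card = 2 ∧ Indep n t A) ↔ t ^ 2 / 2 + t + 1 ≤ n ∧
      (t % 2 = 0 ∨ (t % 4 = 3 ∧ n % 2 = 0) ∨ n % 4 = 2 ∨ (t + 1) * (t + 2) ≤ 2 * n) := by
  rw [pair_iff ht]
  rcases Nat.even_or_odd' t with ⟨j, rfl | rfl⟩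
  · have e : (2 * j) ^ 2 / 2 = 2 * (j * j) := by
      rw [show (2 * j) ^ 2 = 2 * (2 * (j * j)) by ring]; omega
    rw [e]
    constructor
    · rintro ⟨a, b, h⟩
      have := Ind2.low_even hn (by exact_mod_cast h)
      exact ⟨by nlinarith, by omega⟩
    · rintro ⟨h, -⟩
      exact ⟨j, j + 1, ind_consec (by omega) (by omega) (by push_cast; zify at h; nlinarith)⟩
  · have e : (2 * j + 1) ^ 2 / 2 = 2 * (j * j) + 2 * j := by
      rw [show (2 * j + 1) ^ 2 = 2 * (2 * (j * j) + 2 * j) + 1 by ring]; omega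
    rw [e]
    constructor
    · rintro ⟨a, b, h⟩
      have h' : Ind2 n (2 * ((j + 1 : ℕ) : ℤ) - 1) a b := by
        convert h using 1
        push_cast
        ring
      have h1 := h'.low_odd hn
      refine ⟨by nlinarith, ?_⟩
      by_cases hc : n < (j + 1 + 1) * (j + 1) + (j + 1) * (j + 1)
      · have := h'.struct hn hc
        omega
      · exact Or.inr (Or.inr (Or.inr (by nlinarith)))
    · rintro ⟨h, hc⟩
      by_cases h0 : (2 * j + 1 + 1) * (2 * j + 1 + 2) ≤ 2 * n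
      · exact ⟨j + 1, j + 1 + 1, ind_consec (by omega) (by omega)
          (by push_cast; zify at h0; nlinarith)⟩
      · rcases Nat.even_or_odd' j with ⟨i, rfl | rfl⟩
        · obtain ⟨N, rfl⟩ : ∃ N, n = 2 * (2 * N + 1) := ⟨n / 4, by omega⟩
          refine ⟨2 * i - 1, 2 * i + 3, ?_⟩
          convert ind_two (N := N) (i := i) (by omega) (by zify at h; nlinarith) using 1 <;>
            push_cast <;> ring
        · obtain ⟨N, rfl⟩ : ∃ N, n = 2 * N := ⟨n / 2, by omega⟩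
          refine ⟨2 * (i + 1) - 1, 2 * (i + 1) + 1, ?_⟩
          convert ind_one (N := N) (i := i + 1) (by omega) (by zify at h; nlinarith) using 1 <;>
            push_cast <;> ring

end Pool.Agent.P.MP_d10a06_co
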