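import Pool.Agent.P.MP_d10a06_co.Bose

set_option autoImplicit false

namespace Pool.Agent.P.MP_d10a06_co

open Finset Polynomial

theorem three_terms {ι K : Type} [Fintype ι] [CommMonoid K] (d : ι → ℕ) (hd : ∑ i, d i = 3)
    (u : ι → K) : ∃ x y z, ∏ i, u i ^ d i = u x * u y * u z := by
  obtain ⟨x, y, z, h⟩ := Multiset.card_eq_three.1
    (show Multiset.card (∑ i, Multiset.replicate (d i) i) = 3 by simp [Multiset.card_sum, hd])
  refine ⟨x, y, z, ?_⟩
  have : ((∑ i, Multiset.replicate (d i) i).map u).prod = ∏ i, u i ^ d i := by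
    rw [← Multiset.coe_mapAddMonoidHom, map_sum, Multiset.prod_sum]
    simp
  rw [← this, h]
  simp [mul_assoc]

/-- In characteristic three, no product of three of the Bose-Chowla units is trivial. -/
theorem no_three {F K : Type} [Field F] [Field K] [Algebra F K] (h3 : (3 : F) = 0) {a : F}
    (ha : ¬ IsSquare a) {θ : K} (h2 : θ ^ 2 = algebraMap F K a) (h0 : θ ≠ 0)
    (hθ : ∀ f : F[X], f.degree < 2 → aeval θ f = 0 → f = 0) (x y z : Fˣ) :
    (θ + algebraMap F K x) / θ * ((θ + algebraMap F K y) / θ) * ((θ + algebraMap F K z) / θ) ≠ 1 := by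
  intro h
  have e := hθ (C ((x : F) * y + y * z + z * x) * X + C ((x : F) * y * z + a * (x + y + z)))
    (degree_linear_lt) (by
      simp only [map_add, map_mul, aeval_C, aeval_X, ← h2]
      field_simp at h
      linear_combination h)
  have e1 := congrArg (fun f => coeff f 1) e
  have e0 := congrArg (fun f => coeff f 0) e
  simp only [coeff_add, coeff_C_mul, coeff_X_one, coeff_X_zero, coeff_C_zero, coeff_C_succ,
    mul_one, mul_zero, add_zero, zero_add, coeff_zero] at e1 e0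
  have k : a * ((y : F) - x) ^ 2 = (x * y) ^ 2 := by
    linear_combination ((x : F) + y) * e0 - ((x : F) * y + a) * e1 - a * x * y * h3
  have hne : (y : F) - x ≠ 0 := fun hc => by
    rw [hc] at k
    exact pow_ne_zero 2 (mul_ne_zero x.ne_zero y.ne_zero) (by rw [← k]; ring)
  exact ha ⟨x * y / (y - x), by field_simp; linear_combination k⟩

theorem three {k : ℕ} (hk : 1 ≤ k) :
    ∃ A : Finset (ZMod (3 * (9 ^ k - 1))), A.card = 3 ^ k - 1 ∧ Indep (3 * (9 ^ k - 1)) 4 A := by
  classical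
  have : Fact (Nat.Prime 3) := ⟨Nat.prime_three⟩
  have : Fintype (GaloisField 3 k) := Fintype.ofFinite _
  have cF : Nat.card (GaloisField 3 k) = 3 ^ k := GaloisField.card 3 k (by omega)
  have h3 : (3 : GaloisField 3 k) = 0 := by exact_mod_cast CharP.cast_eq_zero (GaloisField 3 k) 3
  obtain ⟨a, ha⟩ := FiniteField.exists_nonsquare (F := GaloisField 3 k)
    (by rw [ringChar.eq _ 3]; norm_num)
  have irr : Fact (Irreducible (X ^ 2 - C a)) :=
    ⟨X_pow_sub_C_irreducible_of_prime Nat.prime_two fun b hb => ha ⟨b, by rw [← hb, sq]⟩⟩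
  have pb := AdjoinRoot.powerBasis (K := GaloisField 3 k) irr.out.ne_zero
  have fr : Module.finrank (GaloisField 3 k) (AdjoinRoot (X ^ 2 - C a)) = 2 := by
    rw [(AdjoinRoot.powerBasis irr.out.ne_zero).finrank, AdjoinRoot.powerBasis_dim,
      natDegree_X_pow_sub_C]
  have := pb.finite
  have : Finite (AdjoinRoot (X ^ 2 - C a)) := Module.finite_of_finite (GaloisField 3 k)
  have cK : Nat.card (AdjoinRoot (X ^ 2 - C a)) = 9 ^ k := by
    rw [Module.natCard_eq_pow_finrank (K := GaloisField 3 k), fr, cF, ← pow_mul, mul_comm, pow_mul]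
    norm_num
  have h2 : AdjoinRoot.root (X ^ 2 - C a) ^ 2 = algebraMap _ _ a := by
    have := AdjoinRoot.aeval_eq (f := X ^ 2 - C a) (X ^ 2 - C a)
    rwa [AdjoinRoot.mk_self, map_sub, map_pow, aeval_X, aeval_C, sub_eq_zero] at this
  have hθ : ∀ f : (GaloisField 3 k)[X], f.degree < 2 →
      aeval (AdjoinRoot.root (X ^ 2 - C a)) f = 0 → f = 0 := fun f hf h0 => by
    rw [AdjoinRoot.aeval_eq, AdjoinRoot.mk_eq_zero] at h0
    exact eq_zero_of_dvd_of_degree_lt h0 (by rwa [degree_X_pow_sub_C (by norm_num)])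
  generalize AdjoinRoot.root (X ^ 2 - C a) = θ at h2 hθ
  obtain ⟨h0, h1, H⟩ := bose_mul (h := 2) le_rfl hθ
  have N3 := no_three h3 ha h2 h0 hθ
  obtain ⟨g, hg⟩ := IsCyclic.exists_generator (α := (AdjoinRoot (X ^ 2 - C a))ˣ)
  have ho : orderOf g = 9 ^ k - 1 := by
    rw [orderOf_eq_card_of_forall_mem_zpowers hg, Nat.card_units, cK]
  have : ∀ x : (GaloisField 3 k)ˣ, ∃ y : ℤ, (g : AdjoinRoot (X ^ 2 - C a)) ^ y =
      (θ + algebraMap (GaloisField 3 k) _ x) / θ := fun x => by
    obtain ⟨y, hy⟩ := hg (Units.mk0 _ (div_ne_zero (h1 x) h0))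
    exact ⟨y, by rw [← Units.val_zpow_eq_zpow_val]; simp [hy]⟩
  choose y hy using this
  have M3 : (9 ^ k - 1) % 3 = 2 := by
    obtain ⟨j, rfl⟩ : ∃ j, k = j + 1 := ⟨k - 1, by omega⟩
    have : 0 < 9 ^ j := by positivity
    rw [pow_succ]
    omega
  rw [← cF, ← Nat.card_units, Nat.card_eq_fintype_card, ← ho]
  rw [← ho] at M3
  refine indep_of_fun (by norm_num)
    (fun x => (((orderOf g + 1) * y x - orderOf g : ℤ) : ZMod (3 * orderOf g))) fun c hc hz => ?_
  have dv : ((3 * orderOf g : ℕ) : ℤ) ∣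
      (orderOf g + 1) * ∑ x, c x * y x - orderOf g * ∑ x, c x := by
    rw [← ZMod.intCast_zmod_eq_zero_iff_dvd, ← hz, mul_sum, mul_sum, ← sum_sub_distrib]
    push_cast
    exact sum_congr rfl fun x _ => by rw [zsmul_eq_mul]; push_cast; ring
  push_cast at dv
  have d1 : (orderOf g : ℤ) ∣ ∑ x, c x * y x := by
    have := (Dvd.intro_left 3 rfl).trans dv
    have e : ∑ x, c x * y x = (orderOf g + 1) * ∑ x, c x * y x - orderOf g * ∑ x, c x +
      orderOf g * (∑ x, c x - ∑ x, c x * y x) := by ring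
    rw [e]
    exact this.add (Dvd.intro _ rfl)
  have d3 : (3 : ℤ) ∣ ∑ x, c x := by
    have := (Dvd.intro _ rfl).trans dv
    obtain ⟨j, hj⟩ : ∃ j : ℤ, (orderOf g : ℤ) = 3 * j + 2 := ⟨orderOf g / 3, by omega⟩
    have e : ∑ x, c x = (orderOf g + 1) * ∑ x, c x * y x - orderOf g * ∑ x, c x +
      3 * ((j + 1) * (∑ x, c x - ∑ x, c x * y x)) := by rw [hj]; ring
    rw [e]
    exact this.add (Dvd.intro _ rfl)
  have pr : ∏ x : (GaloisField 3 k)ˣ, ((θ + algebraMap (GaloisField 3 k) _ x) / θ) ^ c x = 1 := by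
    have e : (g : AdjoinRoot (X ^ 2 - C a)) ^ (∑ x, c x * y x) = 1 := by
      rw [← Units.val_zpow_eq_zpow_val, orderOf_dvd_iff_zpow_eq_one.1 d1, Units.val_one]
    simp only [← hy, ← zpow_mul]
    rw [← e]
    induction (univ : Finset (GaloisField 3 k)ˣ) using Finset.induction_on with
    | empty => simp
    | insert a s ha ih =>
      rw [prod_insert ha, sum_insert ha, ih, zpow_add₀ g.ne_zero, mul_comm (c a)]
  have e1 : ∑ x, |c x| = (∑ x, (c x).toNat : ℕ) + (∑ x, (-c x).toNat : ℕ) := by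
    push_cast
    rw [← sum_add_distrib]
    exact sum_congr rfl fun x _ => by rcases abs_cases (c x) with h | h <;> omega
  have e2 : ∑ x, c x = (∑ x, (c x).toNat : ℕ) - (∑ x, (-c x).toNat : ℕ) := by
    push_cast
    rw [← sum_sub_distrib]
    exact sum_congr rfl fun x _ => by omega
  have key : ∀ c : (GaloisField 3 k)ˣ → ℤ, ∑ x, (c x).toNat = 3 → ∑ x, (-c x).toNat = 0 →
      ∏ x : (GaloisField 3 k)ˣ, ((θ + algebraMap (GaloisField 3 k) _ x) / θ) ^ c x ≠ 1 := by
    intro c p n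
    obtain ⟨x, y, z, e⟩ := three_terms _ p fun x : (GaloisField 3 k)ˣ =>
      (θ + algebraMap (GaloisField 3 k) _ x) / θ
    rw [sum_eq_zero_iff] at n
    rw [prod_congr rfl fun x _ => by
      rw [show c x = (c x).toNat by have := n x (mem_univ x); omega, zpow_natCast], e]
    exact N3 x y z
  by_cases p3 : ∑ x, (c x).toNat ≤ 2
  · by_cases n3 : ∑ x, (-c x).toNat ≤ 2
    · exact H c p3 n3 pr
    · refine absurd ?_ (key (fun x => -c x) (by omega) (by simp only [neg_neg]; omega))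
      simp only [zpow_neg, prod_inv_distrib, pr, inv_one]
  · exact absurd pr (key c (by omega) (by omega))

end Pool.Agent.P.MP_d10a06_co
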